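import Pool.Agent.Lib_helper31.MC.LB
import Pool.Agent.Lib_helper72.MC.GE

/-! Project MC (MP_b08f5f_an), block LB, final form. -/

set_option autoImplicit false

namespace Pool.Agent.Lib_helper68.MC

open MeasureTheory Filter Topology Set
open scoped ComplexConjugate ENNReal NNReal
open Pool.Agent.Lib_helper25.PV (Conf vel Motion centre inertia NC VFlow)
open Pool.Agent.Lib_helper12.HE (ham rad nrm Gam sig shell turn one LimAvg)

noncomputable section

theorem LB_main {ρ : ℂ → ℝ} (h : Dens ρ) (hm : mo ρ = 1) (hc : mean ρ = 0) {a b : ℝ}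
    (ha : a < En ρ ρ) (hb : En ρ ρ < b) {η ε : ℝ} (hη : 0 < η) (hε : 0 < ε) :
    ∀ᶠ N : ℕ in atTop, ENNReal.ofReal (Real.exp (N * (Sent ρ - ε))) ≤
      volume {z : Conf N | z ∈ Reg N η ∧ nrm z ∈ Win N a b} :=
  LB_main_of (fun h _ hs => GE_dil h hs) h hm hc ha hb hη hε

end

end Pool.Agent.Lib_helper68.MC
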