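import Pool.Agent.Lib_helper68.MC.Defs
import Pool.Agent.Lib_helper58.MC.LL
import Pool.Agent.Lib_helper58.MC.WD
import Pool.Agent.Lib_helper89.MC.EN
import Pool.Agent.Lib_helper58.MC.Dens
import Pool.Agent.Lib_helper89.HE.GL
import Pool.Agent.Lib_helper12.HE.FI3
import Pool.Agent.Lib_helper57.PV.B1b

/-! Project MC (MP_b08f5f_an), block LB: lower bound for the volume. -/

set_option autoImplicit false

namespace Pool.Agent.Lib_helper68.MC

open MeasureTheory Filter Topology Set
open scoped ComplexConjugate ENNReal NNReal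
open Pool.Agent.Lib_helper25.PV (Conf vel Motion centre inertia NC VFlow)
open Pool.Agent.Lib_helper12.HE (ham rad nrm Gam sig shell turn one LimAvg)

noncomputable section

/-! ### deterministic part -/

theorem LB_rad {N : ℕ} (hN : 1 ≤ N) (z : Conf N) :
    rad z ^ 2 = (∑ i, ‖z i‖ ^ 2) / N - ‖centre z‖ ^ 2 := by
  have hN0 : (0 : ℝ) < N := by exact_mod_cast hN
  have h1 : 0 ≤ (∑ i, ‖z i - centre z‖ ^ 2) / (N : ℝ) := by positivity
  rw [rad, Real.sq_sqrt h1, Pool.Agent.Lib_helper12.HE.GL_inertia hN, inertia]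
  field_simp

theorem LB_ham {N : ℕ} (hN : 1 ≤ N) {z : Conf N} (hz : Function.Injective z) (hr : 0 < rad z) :
    ham (nrm z) = ham z + 1 / (4 * Real.pi) * (N * ((N : ℝ) - 1) * Real.log (rad z)) := by
  have h1 : ∀ i j, i ≠ j →
      Real.log ‖nrm z i - nrm z j‖ = Real.log ‖z i - z j‖ - Real.log (rad z) := by
    intro i j hij
    have h2 : nrm z i - nrm z j = ((rad z : ℝ) : ℂ)⁻¹ * (z i - z j) := by
      simp only [nrm]
      ring
    have h3 : ‖z i - z j‖ ≠ 0 := by
      rw [norm_ne_zero_iff]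
      exact sub_ne_zero.2 (hz.ne hij)
    rw [h2, norm_mul, norm_inv, Complex.norm_real, Real.norm_of_nonneg hr.le,
      Real.log_mul (by positivity) h3, Real.log_inv]
    ring
  have h4 : ∑ i, ∑ j ∈ Finset.univ.erase i, Real.log ‖nrm z i - nrm z j‖ =
      (∑ i, ∑ j ∈ Finset.univ.erase i, Real.log ‖z i - z j‖) -
        N * ((N : ℝ) - 1) * Real.log (rad z) := by
    have h5 : ∀ i : Fin N, ∑ j ∈ Finset.univ.erase i, Real.log ‖nrm z i - nrm z j‖ =
        (∑ j ∈ Finset.univ.erase i, Real.log ‖z i - z j‖) - ((N : ℝ) - 1) * Real.log (rad z) := by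
      intro i
      rw [Finset.sum_congr rfl fun j hj => h1 i j (Finset.ne_of_mem_erase hj).symm,
        Finset.sum_sub_distrib, Finset.sum_const, Finset.card_erase_of_mem (Finset.mem_univ i),
        Finset.card_univ, Fintype.card_fin, nsmul_eq_mul, Nat.cast_sub hN, Nat.cast_one]
    rw [Finset.sum_congr rfl fun i _ => h5 i, Finset.sum_sub_distrib, Finset.sum_const,
      Finset.card_univ, Fintype.card_fin, nsmul_eq_mul]
    ring
  rw [ham, ham, h4]
  ring

theorem LB_det {N : ℕ} (hN : 2 ≤ N) {z : Conf N} (hz : Function.Injective z) {η δ a b E : ℝ}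
    (hη : 0 < η) (hδ : 0 < δ) (hδ1 : δ ≤ 1) (hδη : 4 * δ ≤ η)
    (ha : a + 4 * δ ≤ E) (hb : E ≤ b - 4 * δ) (hNδ : Real.log (1 + η) ≤ δ * N)
    (h1 : |(∑ i, ‖z i‖ ^ 2) / N - (1 + η / 2) ^ 2| ≤ δ) (h2 : ‖centre z‖ ≤ δ)
    (h3 : |(∑ i, ∑ j ∈ Finset.univ.erase i, Real.log ‖z i - z j‖) / (N : ℝ) ^ 2 -
      (Real.log (1 + η / 2) - 4 * Real.pi * E)| ≤ δ) :
    z ∈ Reg N η ∧ nrm z ∈ Win N a b := by
  have hN0 : (0 : ℝ) < N := by exact_mod_cast (by omega : 0 < N)
  have hc2 : ‖centre z‖ ^ 2 ≤ δ := by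
    have h0 := norm_nonneg (centre z)
    nlinarith
  have hc0 : 0 ≤ ‖centre z‖ ^ 2 := by positivity
  have hsq := LB_rad (by omega : 1 ≤ N) z
  rw [abs_le] at h1
  have hlo : (1 + η / 2) ^ 2 - 2 * δ ≤ rad z ^ 2 := by rw [hsq]; linarith [h1.1]
  have hhi : rad z ^ 2 ≤ (1 + η / 2) ^ 2 + δ := by rw [hsq]; linarith [h1.2]
  obtain ⟨hr, hG⟩ := Pool.Agent.Lib_helper12.HE.GL_gam hN hz
  have hr1 : 1 ≤ rad z := by
    by_contra hcon
    have : rad z ^ 2 < 1 := by nlinarith [not_le.1 hcon]
    nlinarith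
  have hr2 : rad z < 1 + η := by
    by_contra hcon
    have : (1 + η) ^ 2 ≤ rad z ^ 2 := by nlinarith [not_lt.1 hcon]
    nlinarith
  refine ⟨⟨by linarith, hr1, hr2⟩, hG, ?_⟩
  -- logarithms
  have hs1 : (1 : ℝ) ≤ 1 + η / 2 := by linarith
  have hlog0 : 0 ≤ Real.log (rad z) := Real.log_nonneg hr1
  have hlog1 : Real.log (rad z) ≤ Real.log (1 + η) := Real.log_le_log hr hr2.le
  have hlog2 : |Real.log (rad z) - Real.log (1 + η / 2)| ≤ 2 * δ := by
    have h5 : ∀ u v : ℝ, 1 ≤ u → 1 ≤ v → v ^ 2 - u ^ 2 ≤ 2 * δ →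
        Real.log v - Real.log u ≤ 2 * δ := by
      intro u v hu hv huv
      have hu0 : 0 < u := by linarith
      have hv0 : 0 < v := by linarith
      rw [← Real.log_div hv0.ne' hu0.ne']
      have h6 := Real.log_le_sub_one_of_pos (div_pos hv0 hu0)
      have h7 : v / u - 1 ≤ 2 * δ := by
        rw [div_sub_one hu0.ne', div_le_iff₀ hu0]
        rcases le_or_gt v u with h | h
        · nlinarith
        · nlinarith
      linarith
    rw [abs_le]
    constructor
    · have := h5 (rad z) (1 + η / 2) hr1 hs1 (by linarith)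
      linarith
    · exact h5 (1 + η / 2) (rad z) hs1 hr1 (by linarith)
  have hham : ham (nrm z) / (N : ℝ) ^ 2 = ham z / (N : ℝ) ^ 2 +
      1 / (4 * Real.pi) * (Real.log (rad z) - Real.log (rad z) / N) := by
    rw [LB_ham (by omega) hz hr]
    field_simp
  have hz2 : ham z / (N : ℝ) ^ 2 = -(1 / (4 * Real.pi)) *
      ((∑ i, ∑ j ∈ Finset.univ.erase i, Real.log ‖z i - z j‖) / (N : ℝ) ^ 2) := by
    rw [ham]
    ring
  have hsmall : Real.log (rad z) / N ≤ δ := by
    rw [div_le_iff₀ hN0]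
    linarith
  have hsmall0 : 0 ≤ Real.log (rad z) / N := div_nonneg hlog0 hN0.le
  set L := (∑ i, ∑ j ∈ Finset.univ.erase i, Real.log ‖z i - z j‖) / (N : ℝ) ^ 2 with hL
  have hpi : 0 < Real.pi := Real.pi_pos
  have hpi3 : 3 < Real.pi := Real.pi_gt_three
  have key : |ham (nrm z) / (N : ℝ) ^ 2 - E| ≤ 1 / (4 * Real.pi) * (4 * δ) := by
    have h8 : ham (nrm z) / (N : ℝ) ^ 2 - E = 1 / (4 * Real.pi) *
        (-(L - (Real.log (1 + η / 2) - 4 * Real.pi * E)) +
          (Real.log (rad z) - Real.log (1 + η / 2)) - Real.log (rad z) / N) := by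
      rw [hham, hz2]
      field_simp
      ring
    rw [h8, abs_mul, abs_of_pos (by positivity : 0 < 1 / (4 * Real.pi))]
    refine mul_le_mul_of_nonneg_left ?_ (by positivity)
    rw [abs_le] at h3 hlog2 ⊢
    constructor <;> linarith [h3.1, h3.2, hlog2.1, hlog2.2]
  have h9 : 1 / (4 * Real.pi) * (4 * δ) ≤ 4 * δ := by
    have : 1 / (4 * Real.pi) ≤ 1 := by
      rw [div_le_one (by positivity)]
      linarith
    nlinarith
  rw [abs_le] at key
  constructor <;> linarith [key.1, key.2]

/-! ### integrability with respect to `wd ρ` -/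

theorem LB_integrable {ρ : ℂ → ℝ} (h : Dens ρ) {f : ℂ → ℝ} (hf : Integrable fun x => f x * ρ x) :
    Integrable f (wd ρ) := by
  rw [wd, integrable_withDensity_iff_integrable_smul' h.meas.ennreal_ofReal
    (Eventually.of_forall fun x => ENNReal.ofReal_lt_top)]
  refine hf.congr (Eventually.of_forall fun x => ?_)
  simp only [ENNReal.toReal_ofReal (h.nonneg x), smul_eq_mul]
  ring

theorem LB_prod {ρ : ℂ → ℝ} (h : Dens ρ) : (wd ρ).prod (wd ρ) =
    (volume : Measure (ℂ × ℂ)).withDensity fun p => ENNReal.ofReal (ρ p.1 * ρ p.2) := by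
  have := WD_prob h
  have h1 : (wd ρ).prod (wd ρ) = ((volume : Measure ℂ).prod (volume : Measure ℂ)).withDensity
      fun p => ENNReal.ofReal (ρ p.1) * ENNReal.ofReal (ρ p.2) := by
    have hs : SFinite (volume.withDensity fun x => ENNReal.ofReal (ρ x)) := inferInstance
    rw [wd, prod_withDensity h.meas.ennreal_ofReal h.meas.ennreal_ofReal]
  rw [h1, ← Measure.volume_eq_prod]
  congr 1
  funext p
  rw [ENNReal.ofReal_mul (h.nonneg _)]

theorem LB_prod_integrable {ρ : ℂ → ℝ} (h : Dens ρ) :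
    Integrable (fun p : ℂ × ℂ => Real.log ‖p.1 - p.2‖) ((wd ρ).prod (wd ρ)) := by
  have hm : Measurable fun p : ℂ × ℂ => ρ p.1 * ρ p.2 :=
    (h.meas.comp measurable_fst).mul (h.meas.comp measurable_snd)
  rw [LB_prod h, integrable_withDensity_iff_integrable_smul' hm.ennreal_ofReal
    (Eventually.of_forall fun x => ENNReal.ofReal_lt_top)]
  refine (EN_int h h).congr (Eventually.of_forall fun p => ?_)
  simp only [ENNReal.toReal_ofReal (mul_nonneg (h.nonneg p.1) (h.nonneg p.2)), smul_eq_mul]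
  ring

theorem LB_prod_integral {ρ : ℂ → ℝ} (h : Dens ρ) :
    ∫ p, Real.log ‖p.1 - p.2‖ ∂((wd ρ).prod (wd ρ)) = -(4 * Real.pi * En ρ ρ) := by
  have hm : Measurable fun p : ℂ × ℂ => ρ p.1 * ρ p.2 :=
    (h.meas.comp measurable_fst).mul (h.meas.comp measurable_snd)
  rw [LB_prod h, integral_withDensity_eq_integral_toReal_smul hm.ennreal_ofReal
    (Eventually.of_forall fun _ => ENNReal.ofReal_lt_top), En]
  have h1 : ∀ p : ℂ × ℂ, (ENNReal.ofReal (ρ p.1 * ρ p.2)).toReal • Real.log ‖p.1 - p.2‖ =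
      Real.log ‖p.1 - p.2‖ * (ρ p.1 * ρ p.2) := by
    intro p
    rw [ENNReal.toReal_ofReal (mul_nonneg (h.nonneg p.1) (h.nonneg p.2)), smul_eq_mul]
    ring
  simp only [h1]
  have hpi : Real.pi ≠ 0 := Real.pi_ne_zero
  field_simp

/-- the volume of a set on which the mean of `log ρ` is almost the right one -/
theorem LB_change {ρ : ℂ → ℝ} (h : Dens ρ) {N : ℕ} (hN : 1 ≤ N) {G : Set (Conf N)}
    (hG : MeasurableSet G) {c : ℝ} (hc : ∀ z ∈ G, (∑ i, Real.log (ρ (z i))) / N ≤ c) :
    Measure.pi (fun _ : Fin N => wd ρ) G ≤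
      ENNReal.ofReal (Real.exp (N * c)) * volume G := by
  have := WD_prob h
  have : IsProbabilityMeasure (volume.withDensity fun x => ENNReal.ofReal (ρ x)) := WD_prob h
  have hN0 : (0 : ℝ) < N := by exact_mod_cast hN
  have h1 := Pool.Agent.Lib_helper58.MC.pi_le_of_density_le (n := N) volume
    (fun x => ENNReal.ofReal (ρ x)) h.meas.ennreal_ofReal
    (ENNReal.ofReal (Real.exp (N * c))) G hG (by
      intro z hz
      rw [← ENNReal.ofReal_prod_of_nonneg fun i _ => h.nonneg _]
      refine ENNReal.ofReal_le_ofReal ?_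
      by_cases h0 : ∃ i, ρ (z i) = 0
      · obtain ⟨i, hi⟩ := h0
        rw [Finset.prod_eq_zero (Finset.mem_univ i) hi]
        positivity
      · push Not at h0
        have hpos : ∀ i, 0 < ρ (z i) := fun i => lt_of_le_of_ne (h.nonneg _) (Ne.symm (h0 i))
        have h2 : ∏ i, ρ (z i) = Real.exp (∑ i, Real.log (ρ (z i))) := by
          rw [Real.exp_sum]
          exact Finset.prod_congr rfl fun i _ => (Real.exp_log (hpos i)).symm
        rw [h2]
        refine Real.exp_le_exp.2 ?_
        have := hc z hz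
        rw [div_le_iff₀ hN0] at this
        linarith)
  rw [volume_pi]
  exact h1

theorem LB_inj {ρ : ℂ → ℝ} (h : Dens ρ) (N : ℕ) :
    Measure.pi (fun _ : Fin N => wd ρ) {z : Conf N | ¬ Function.Injective z} = 0 := by
  have := WD_prob h
  have : IsProbabilityMeasure (volume.withDensity fun x => ENNReal.ofReal (ρ x)) := WD_prob h
  have h1 : Measure.pi (fun _ : Fin N => wd ρ) ≪ (volume : Measure (Conf N)) := by
    have h2 := Pool.Agent.Lib_helper58.MC.pi_withDensity (n := N) volume
      (fun x => ENNReal.ofReal (ρ x)) h.meas.ennreal_ofReal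
    rw [wd, h2, volume_pi]
    exact withDensity_absolutelyContinuous _ _
  exact h1 (Pool.Agent.Lib_helper25.PV.B1b_ae N)

/-! ### main statement -/

/-- `LB_main` with the block `GE_dil` as a hypothesis -/
theorem LB_main_of (GE : ∀ {ρ : ℂ → ℝ}, Dens ρ → ∀ {s : ℝ}, 0 < s →
      Dens (dil s ρ) ∧ Sent (dil s ρ) = Sent ρ + 2 * Real.log s ∧ mo (dil s ρ) = s ^ 2 * mo ρ ∧
      mean (dil s ρ) = s * mean ρ ∧
      En (dil s ρ) (dil s ρ) = En ρ ρ - 1 / (4 * Real.pi) * Real.log s)
    {ρ : ℂ → ℝ} (h : Dens ρ) (hm : mo ρ = 1) (hc : mean ρ = 0) {a b : ℝ}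
    (ha : a < En ρ ρ) (hb : En ρ ρ < b) {η ε : ℝ} (hη : 0 < η) (hε : 0 < ε) :
    ∀ᶠ N : ℕ in atTop, ENNReal.ofReal (Real.exp (N * (Sent ρ - ε))) ≤
      volume {z : Conf N | z ∈ Reg N η ∧ nrm z ∈ Win N a b} := by
  obtain ⟨hd, hS, hmo, hme, hEn⟩ := GE h (s := 1 + η / 2) (by positivity)
  set q : ℂ → ℝ := dil (1 + η / 2) ρ with hq
  rw [hm, mul_one] at hmo
  rw [hc, mul_zero] at hme
  have := WD_prob hd
  set P : Measure ℂ := wd q with hP
  -- the tolerance
  obtain ⟨δ, hδ, hδ1, hδη, hδa, hδb, hδε⟩ : ∃ δ : ℝ, 0 < δ ∧ δ ≤ 1 ∧ 4 * δ ≤ η ∧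
      a + 4 * δ ≤ En ρ ρ ∧ En ρ ρ ≤ b - 4 * δ ∧ 2 * δ ≤ ε := by
    refine ⟨min 1 (min (η / 4) (min ((En ρ ρ - a) / 4) (min ((b - En ρ ρ) / 4) (ε / 2)))),
      ?_, ?_, ?_, ?_, ?_, ?_⟩
    · refine lt_min one_pos (lt_min (by positivity) (lt_min ?_ (lt_min ?_ (by positivity))))
      · linarith
      · linarith
    · exact min_le_left _ _
    · have := (min_le_right 1 (min (η / 4) (min ((En ρ ρ - a) / 4)
        (min ((b - En ρ ρ) / 4) (ε / 2))))).trans (min_le_left _ _)
      linarith
    · have := ((min_le_right 1 (min (η / 4) (min ((En ρ ρ - a) / 4)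
        (min ((b - En ρ ρ) / 4) (ε / 2))))).trans (min_le_right _ _)).trans (min_le_left _ _)
      linarith
    · have := (((min_le_right 1 (min (η / 4) (min ((En ρ ρ - a) / 4)
        (min ((b - En ρ ρ) / 4) (ε / 2))))).trans (min_le_right _ _)).trans
          (min_le_right _ _)).trans (min_le_left _ _)
      linarith
    · have := (((min_le_right 1 (min (η / 4) (min ((En ρ ρ - a) / 4)
        (min ((b - En ρ ρ) / 4) (ε / 2))))).trans (min_le_right _ _)).trans
          (min_le_right _ _)).trans (min_le_right _ _)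
      linarith
  -- the laws of large numbers
  have i1 : Integrable (fun x : ℂ => ‖x‖ ^ 2) P := LB_integrable hd hd.mom
  have hid : Integrable (fun x : ℂ => x) P := by
    have hb2 : Integrable (fun x : ℂ => 1 + ‖x‖ ^ 2) P := (integrable_const 1).add i1
    refine hb2.mono' measurable_id.aestronglyMeasurable (Eventually.of_forall fun x => ?_)
    nlinarith [sq_nonneg (‖x‖ - 1)]
  have i2 : Integrable (fun x : ℂ => x.re) P := hid.re
  have i3 : Integrable (fun x : ℂ => x.im) P := hid.im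
  have i4 : Integrable (fun x : ℂ => Real.log (q x)) P := by
    refine LB_integrable hd (hd.ent.congr (Eventually.of_forall fun x => ?_))
    exact mul_comm _ _
  have i5 := LB_prod_integrable hd
  have e1 : ∫ x, ‖x‖ ^ 2 ∂P = (1 + η / 2) ^ 2 := by
    rw [hP, WD_integral hd fun x => ‖x‖ ^ 2]
    exact hmo
  have e0' : ∫ x, x ∂P = 0 := by rw [hP, WD_mean hd, hme]
  have e2 : ∫ x : ℂ, x.re ∂P = 0 := by
    rw [show (∫ x : ℂ, x.re ∂P) = (∫ x, x ∂P).re from (integral_re hid), e0']
    simp
  have e3 : ∫ x : ℂ, x.im ∂P = 0 := by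
    rw [show (∫ x : ℂ, x.im ∂P) = (∫ x, x ∂P).im from (integral_im hid), e0']
    simp
  have e4 : ∫ x, Real.log (q x) ∂P = -Sent q := by
    rw [hP, WD_integral hd fun x => Real.log (q x), Sent, neg_neg]
    refine integral_congr_ae (Eventually.of_forall fun x => ?_)
    exact mul_comm _ _
  have e5 := LB_prod_integral hd
  have t1 := LL_one P i1 hδ
  have t2 := LL_one P i2 (half_pos hδ)
  have t3 := LL_one P i3 (half_pos hδ)
  have t4 := LL_one P i4 hδ
  have t5 := LL_two P i5 hδ
  rw [e1] at t1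
  rw [e2] at t2
  rw [e3] at t3
  rw [e4] at t4
  rw [e5] at t5
  have hsm : (0 : ℝ≥0∞) < 1 / 10 := by norm_num
  have n1 := t1.eventually (gt_mem_nhds hsm)
  have n2 := t2.eventually (gt_mem_nhds hsm)
  have n3 := t3.eventually (gt_mem_nhds hsm)
  have n4 := t4.eventually (gt_mem_nhds hsm)
  have n5 := t5.eventually (gt_mem_nhds hsm)
  have n6 : ∀ᶠ N : ℕ in atTop, Real.log (1 + η) ≤ δ * N := by
    have : Tendsto (fun N : ℕ => δ * (N : ℝ)) atTop atTop :=
      Tendsto.const_mul_atTop hδ tendsto_natCast_atTop_atTop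
    exact this.eventually_ge_atTop _
  have n7 : ∀ᶠ N : ℕ in atTop, 1 ≤ δ * N := by
    have : Tendsto (fun N : ℕ => δ * (N : ℝ)) atTop atTop :=
      Tendsto.const_mul_atTop hδ tendsto_natCast_atTop_atTop
    exact this.eventually_ge_atTop _
  filter_upwards [n1, n2, n3, n4, n5, n6, n7, eventually_ge_atTop 2] with N m1 m2 m3 m4 m5 m6 m7 hN
  have hN0 : (0 : ℝ) < N := by exact_mod_cast (by omega : 0 < N)
  set Q : Measure (Conf N) := Measure.pi fun _ : Fin N => P with hQ
  set A1 : Set (Conf N) := {z | δ ≤ |(∑ i, ‖z i‖ ^ 2) / N - (1 + η / 2) ^ 2|} with hA1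
  set A2 : Set (Conf N) := {z | δ / 2 ≤ |(∑ i, (z i).re) / N - 0|} with hA2
  set A3 : Set (Conf N) := {z | δ / 2 ≤ |(∑ i, (z i).im) / N - 0|} with hA3
  set A4 : Set (Conf N) := {z | δ ≤ |(∑ i, Real.log (q (z i))) / N - -Sent q|} with hA4
  set A5 : Set (Conf N) := {z | δ ≤ |(∑ i, ∑ j ∈ Finset.univ.erase i,
    Real.log ‖z i - z j‖) / (N : ℝ) ^ 2 - -(4 * Real.pi * En q q)|} with hA5
  set A6 : Set (Conf N) := {z | ¬ Function.Injective z} with hA6
  have hqm : Measurable q := hd.meas
  have M1 : MeasurableSet A1 := measurableSet_le measurable_const (by fun_prop)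
  have M2 : MeasurableSet A2 := measurableSet_le measurable_const (by fun_prop)
  have M3 : MeasurableSet A3 := measurableSet_le measurable_const (by fun_prop)
  have M4 : MeasurableSet A4 := by
    refine measurableSet_le measurable_const ?_
    have : Measurable fun z : Conf N => ∑ i, Real.log (q (z i)) :=
      Finset.measurable_fun_sum _ fun i _ =>
        Real.measurable_log.comp (hqm.comp (measurable_pi_apply i))
    fun_prop
  have M5 : MeasurableSet A5 := by
    refine measurableSet_le measurable_const ?_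
    have : Measurable fun z : Conf N => ∑ i, ∑ j ∈ Finset.univ.erase i, Real.log ‖z i - z j‖ :=
      Finset.measurable_fun_sum _ fun i _ => Finset.measurable_fun_sum _ fun j _ => by fun_prop
    fun_prop
  have M6 : MeasurableSet A6 := by
    have h1 : MeasurableSet {z : Conf N | Function.Injective z} := by
      have h : {z : Conf N | Function.Injective z} =
          ⋂ i, ⋂ j, ⋂ (_ : i ≠ j), {z : Conf N | z i ≠ z j} := by
        ext z
        simp only [mem_ofPred_eq, mem_iInter, Function.Injective]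
        constructor
        · intro h i j hij h'
          exact hij (h h')
        · intro h i j h'
          by_contra hij
          exact h i j hij h'
      rw [h]
      refine MeasurableSet.iInter fun i => MeasurableSet.iInter fun j =>
        MeasurableSet.iInter fun _ => ?_
      exact (measurableSet_eq_fun (measurable_pi_apply i) (measurable_pi_apply j)).compl
    exact h1.compl
  set B : Set (Conf N) := A1 ∪ (A2 ∪ (A3 ∪ (A4 ∪ (A5 ∪ A6)))) with hB
  have MB : MeasurableSet B := M1.union (M2.union (M3.union (M4.union (M5.union M6))))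
  have hBle : Q B ≤ 1 / 2 := by
    have h6 : Q A6 = 0 := LB_inj hd N
    calc Q B ≤ Q A1 + (Q A2 + (Q A3 + (Q A4 + (Q A5 + Q A6)))) := by
          refine (measure_union_le _ _).trans (add_le_add le_rfl ?_)
          refine (measure_union_le _ _).trans (add_le_add le_rfl ?_)
          refine (measure_union_le _ _).trans (add_le_add le_rfl ?_)
          refine (measure_union_le _ _).trans (add_le_add le_rfl ?_)
          exact measure_union_le _ _
      _ ≤ 1 / 10 + (1 / 10 + (1 / 10 + (1 / 10 + (1 / 10 + 0)))) := by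
          rw [h6]
          refine add_le_add m1.le (add_le_add m2.le (add_le_add m3.le (add_le_add m4.le ?_)))
          exact add_le_add m5.le le_rfl
      _ ≤ 1 / 2 := by
          rw [add_zero]
          have e : (1 / 10 : ℝ≥0∞) = ENNReal.ofReal (1 / 10) := by
            rw [ENNReal.ofReal_div_of_pos (by norm_num)]
            simp
          have e' : (1 / 2 : ℝ≥0∞) = ENNReal.ofReal (1 / 2) := by
            rw [ENNReal.ofReal_div_of_pos (by norm_num)]
            simp
          rw [e, e', ← ENNReal.ofReal_add (by norm_num) (by norm_num),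
            ← ENNReal.ofReal_add (by norm_num) (by norm_num),
            ← ENNReal.ofReal_add (by norm_num) (by norm_num),
            ← ENNReal.ofReal_add (by norm_num) (by norm_num)]
          exact ENNReal.ofReal_le_ofReal (by norm_num)
  have hG : 1 / 2 ≤ Q Bᶜ := by
    have h1 : Q Bᶜ = 1 - Q B := prob_compl_eq_one_sub MB
    rw [h1]
    have h2 : (1 : ℝ≥0∞) - 1 / 2 = 1 / 2 := by
      rw [one_div, ENNReal.one_sub_inv_two]
    rw [← h2]
    exact tsub_le_tsub_left hBle 1
  -- points of the good set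
  have hgood : Bᶜ ⊆ {z : Conf N | z ∈ Reg N η ∧ nrm z ∈ Win N a b} := by
    intro z hz
    simp only [hB, hA1, hA2, hA3, hA4, hA5, hA6, mem_compl_iff, mem_union, mem_ofPred_eq, not_or,
      not_le, not_not, sub_zero] at hz
    obtain ⟨z1, z2, z3, z4, z5, z6⟩ := hz
    refine LB_det hN z6 hη hδ hδ1 hδη hδa hδb m6 z1.le ?_ ?_
    · have hre : (centre z).re = (∑ i, (z i).re) / N := by
        simp [centre, Complex.div_natCast_re]
      have him : (centre z).im = (∑ i, (z i).im) / N := by
        simp [centre, Complex.div_natCast_im]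
      have h3 := Complex.norm_le_abs_re_add_abs_im (centre z)
      rw [hre, him] at h3
      linarith
    · have h3 : -(4 * Real.pi * En q q) = Real.log (1 + η / 2) - 4 * Real.pi * En ρ ρ := by
        rw [hEn]
        have := Real.pi_ne_zero
        field_simp
        ring
      rw [h3] at z5
      exact z5.le
  have hchg := LB_change hd (by omega : 1 ≤ N) MB.compl (c := -Sent q + δ) (by
    intro z hz
    simp only [hB, hA1, hA2, hA3, hA4, hA5, hA6, mem_compl_iff, mem_union, mem_ofPred_eq, not_or,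
      not_le, not_not, sub_zero] at hz
    obtain ⟨z1, z2, z3, z4, z5, z6⟩ := hz
    have := (abs_lt.1 z4).2
    linarith)
  -- conclusion
  have hSq : Sent ρ ≤ Sent q := by
    rw [hS]
    have : 0 ≤ Real.log (1 + η / 2) := Real.log_nonneg (by linarith)
    linarith
  have hfin : ENNReal.ofReal (Real.exp (N * (Sent ρ - ε))) ≤ volume Bᶜ := by
    have h1 : ENNReal.ofReal (1 / 2) ≤
        ENNReal.ofReal (Real.exp (N * (-Sent q + δ))) * volume Bᶜ := by
      have e' : (1 / 2 : ℝ≥0∞) = ENNReal.ofReal (1 / 2) := by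
        rw [ENNReal.ofReal_div_of_pos (by norm_num)]
        simp
      rw [← e']
      exact hG.trans hchg
    have h2 : ENNReal.ofReal (Real.exp (N * (Sent ρ - ε))) ≤
        ENNReal.ofReal (Real.exp (N * (Sent q - δ))) * ENNReal.ofReal (1 / 2) := by
      rw [← ENNReal.ofReal_mul (Real.exp_pos _).le]
      refine ENNReal.ofReal_le_ofReal ?_
      have h3 : Real.exp (N * (Sent ρ - ε)) ≤ Real.exp (N * (Sent q - δ) + -1) := by
        refine Real.exp_le_exp.2 ?_
        nlinarith
      have h4 : Real.exp (-1) ≤ 1 / 2 := by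
        have := Real.exp_neg_one_lt_d9
        linarith
      calc Real.exp (N * (Sent ρ - ε)) ≤ Real.exp (N * (Sent q - δ) + -1) := h3
        _ = Real.exp (N * (Sent q - δ)) * Real.exp (-1) := Real.exp_add _ _
        _ ≤ _ := mul_le_mul_of_nonneg_left h4 (Real.exp_pos _).le
    refine h2.trans ?_
    calc ENNReal.ofReal (Real.exp (N * (Sent q - δ))) * ENNReal.ofReal (1 / 2)
        ≤ ENNReal.ofReal (Real.exp (N * (Sent q - δ))) *
          (ENNReal.ofReal (Real.exp (N * (-Sent q + δ))) * volume Bᶜ) :=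
          mul_le_mul_right h1 _
      _ = volume Bᶜ := by
          rw [← mul_assoc, ← ENNReal.ofReal_mul (Real.exp_pos _).le, ← Real.exp_add]
          have : (N : ℝ) * (Sent q - δ) + N * (-Sent q + δ) = 0 := by ring
          rw [this, Real.exp_zero, ENNReal.ofReal_one, one_mul]
  exact hfin.trans (measure_mono hgood)

end

end Pool.Agent.Lib_helper68.MC
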